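import Pool.Agent.Q205.NH.Asm
import Pool.Agent.Q239.NH.HC
import Pool.Agent.Q239.NH.AV
import Pool.Agent.Q239.NH.PG
import Pool.Agent.Q239.NH.KL
import Pool.Agent.Q239.NH.DS
import Pool.Agent.Q223.NH.CP
import Pool.Agent.Q223.NH.CC
import Pool.Agent.Q223.NH.TF

set_option autoImplicit false

/-!
# Project NH: the main theorem on almost every oracle
-/

namespace Pool.Agent.Q205.NH

theorem main_ae : S_MM :=
  mm (cm (Pool.Agent.Q239.NH.pg (Pool.Agent.Q239.NH.av Pool.Agent.Q239.NH.hc))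
    Pool.Agent.Q223.NH.s_cp Pool.Agent.Q223.NH.s_cc Pool.Agent.Q239.NH.kl)
    Pool.Agent.Q239.NH.ds Pool.Agent.Q223.NH.s_tf

end Pool.Agent.Q205.NH
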