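import Pool.Agent.Q205.NH.Stm

set_option autoImplicit false

/-!
# Project NH: assembly of the main theorem on almost every oracle
-/

namespace Pool.Agent.Q205.NH

open Pool.Agent.Helper743 Pool.Agent.H715R3.Disp MeasureTheory
open scoped ENNReal

theorem bits_eq (B : ℕ → Bool) (n : ℕ) : bits B n = List.ofFn (fun i : Fin n => B i) := by
  unfold bits
  apply List.ext_getElem
  · simp
  · intro i h1 h2
    simp

theorem bits_prefix (B : ℕ → Bool) {n m : ℕ} (h : n ≤ m) : bits B n <+: bits B m := by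
  unfold bits
  obtain ⟨k, rfl⟩ := Nat.exists_eq_add_of_le h
  rw [List.range_add, List.map_append]
  exact List.prefix_append _ _

theorem meas_fin (n : ℕ) (P : (Fin n → Bool) → Prop) :
    MeasurableSet {B : ℕ → Bool | P (fun i : Fin n => B i)} := by
  have h1 : Measurable (fun B : ℕ → Bool => (fun i : Fin n => B i)) :=
    measurable_pi_lambda _ (fun i => measurable_pi_apply _)
  have h2 : MeasurableSet {σ : Fin n → Bool | P σ} := (Set.toFinite _).measurableSet
  exact h1 h2

theorem meas_bits (n : ℕ) (P : List Bool → Prop) : MeasurableSet {B : ℕ → Bool | P (bits B n)} := by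
  have := meas_fin n (fun σ => P (List.ofFn σ))
  simpa only [bits_eq] using this

theorem mu_fin (L : ℕ) (S : Finset (Fin L → Bool)) :
    mu {B | (fun i : Fin L => B i) ∈ S} = S.card * (2⁻¹ : ℝ≥0∞) ^ L := by
  classical
  induction S using Finset.induction_on with
  | empty => simp
  | @insert σ S hσ ih =>
    have h1 : {B : ℕ → Bool | (fun i : Fin L => B i) ∈ insert σ S} =
        {B | (fun i : Fin L => B i) = σ} ∪ {B | (fun i : Fin L => B i) ∈ S} := by
      ext B; simp
    have hd : Disjoint {B : ℕ → Bool | (fun i : Fin L => B i) = σ}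
        {B | (fun i : Fin L => B i) ∈ S} := by
      rw [Set.disjoint_left]
      rintro B (hB : _ = σ) (hB' : _ ∈ S)
      rw [hB] at hB'
      exact hσ hB'
    rw [h1, measure_union hd (meas_fin L (fun τ => τ ∈ S)), ih, Finset.card_insert_of_notMem hσ]
    have h2 : {B : ℕ → Bool | (fun i : Fin L => B i) = σ} =
        {B | ∀ i < L, B i = (fun n => if h : n < L then σ ⟨n, h⟩ else false) i} := by
      ext B
      constructor
      · rintro (rfl : _ = σ) i hi
        simp [hi]
      · intro h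
        funext i
        have := h i i.2
        simpa using this
    rw [h2, cyl_measure]
    push_cast
    ring

theorem cm (hPG : S_PG) (hCP : S_CP) (hCC : S_CC) (hKL : S_KL) : S_CM := by
  classical
  intro E hE
  obtain ⟨CB, hCB, hiff⟩ := hCP E hE
  refine ⟨col CB, hCC CB hCB, fun e => ?_⟩
  obtain ⟨M, hM, h | ⟨w, hw, h⟩⟩ := hKL CB e
  · by_contra hcon
    rw [not_le] at hcon
    have h1 : 3 / 4 < mu {B | (HS E e B).Infinite} :=
      lt_of_lt_of_le hcon (measure_mono (fun B hB => hB.1))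
    obtain ⟨K, j, L, hC⟩ := hPG E hE e M hM h1
    have h2 := (hiff e M (Nat.pair K (Nat.pair j L))).2 (by simpa [wK, wj, wL] using hC)
    rw [h] at h2
    exact absurd h2 (by simp)
  · have hC := (hiff e M w).1 hw
    set L := wL w with hL
    set S : Finset (Fin L → Bool) := Finset.univ.filter
      (fun σ : Fin L → Bool => GoodStr E e M (wK w) (wj w) L (List.ofFn σ)) with hS
    have hC' : 2 ^ L ≤ 2 * S.card := by
      unfold Cond at hC
      convert hC using 2
    have h1 : {B | (HS E e B).Infinite ∧ ¬ Killed (col CB) (HS E e B)} ⊆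
        {B | (fun i : Fin L => B i) ∈ S}ᶜ := by
      rintro B ⟨_, hB⟩ hB2
      apply hB
      have hB3 : GoodStr E e M (wK w) (wj w) L (bits B L) := by
        have := (Finset.mem_filter.1 hB2).2
        rw [bits_eq]
        exact this
      obtain ⟨D, hD1, hD2⟩ := hB3
      obtain ⟨y0, hy0⟩ := h D (fun d hd => (hD2 d hd).1) hD1
      exact ⟨D, fun d hd => ⟨L, (hD2 d hd).2⟩, y0, hy0⟩
    have hm : MeasurableSet {B : ℕ → Bool | (fun i : Fin L => B i) ∈ S} :=
      meas_fin L (fun τ => τ ∈ S)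
    have h2 : (2⁻¹ : ℝ≥0∞) ≤ mu {B | (fun i : Fin L => B i) ∈ S} := by
      rw [mu_fin]
      have h3 : ((2 : ℝ≥0∞) ^ L) ≤ 2 * (S.card : ℝ≥0∞) := by exact_mod_cast hC'
      calc (2⁻¹ : ℝ≥0∞) = 2⁻¹ * ((2 : ℝ≥0∞) ^ L * (2⁻¹) ^ L) := by
            rw [← mul_pow, ENNReal.mul_inv_cancel (by norm_num) (by norm_num), one_pow, mul_one]
        _ ≤ 2⁻¹ * ((2 * (S.card : ℝ≥0∞)) * (2⁻¹) ^ L) := by gcongr
        _ = (S.card : ℝ≥0∞) * (2⁻¹) ^ L := by
            rw [← mul_assoc, ← mul_assoc, ENNReal.inv_mul_cancel (by norm_num) (by norm_num),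
              one_mul]
    calc mu {B | (HS E e B).Infinite ∧ ¬ Killed (col CB) (HS E e B)}
        ≤ mu {B | (fun i : Fin L => B i) ∈ S}ᶜ := measure_mono h1
      _ = 1 - mu {B | (fun i : Fin L => B i) ∈ S} := prob_compl_eq_one_sub hm
      _ ≤ 1 - 2⁻¹ := tsub_le_tsub_left h2 _
      _ ≤ 3 / 4 := by
          rw [ENNReal.one_sub_inv_two]
          rw [ENNReal.le_div_iff_mul_le (by norm_num) (by norm_num)]
          have : (2⁻¹ : ℝ≥0∞) * 4 = 2 := by
            rw [show (4 : ℝ≥0∞) = 2 * 2 by norm_num, ← mul_assoc,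
              ENNReal.inv_mul_cancel (by norm_num) (by norm_num), one_mul]
          rw [this]
          norm_num

theorem meas_HS (E : ℕ → List Bool → ℕ → Bool) (e x : ℕ) : MeasurableSet {B | x ∈ HS E e B} := by
  have : {B | x ∈ HS E e B} = ⋃ n, {B : ℕ → Bool | E e (bits B n) x = true} := by
    ext B; simp [HS]
  rw [this]
  exact MeasurableSet.iUnion (fun n => meas_bits n (fun ρ => E e ρ x = true))

theorem meas_inf (E : ℕ → List Bool → ℕ → Bool) (e : ℕ) :
    MeasurableSet {B | (HS E e B).Infinite} := by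
  have : {B | (HS E e B).Infinite} = ⋂ N : ℕ, ⋃ x : ℕ, ⋃ (_ : N < x), {B | x ∈ HS E e B} := by
    ext B
    simp only [Set.mem_iInter, Set.mem_iUnion, exists_prop]
    constructor
    · intro h N
      obtain ⟨x, hx, hN⟩ := Set.Infinite.exists_gt h N
      exact ⟨x, hN, hx⟩
    · intro h
      refine Set.infinite_of_forall_exists_gt (fun N => ?_)
      obtain ⟨x, hN, hx⟩ := h N
      exact ⟨x, hx, hN⟩
  rw [this]
  exact MeasurableSet.iInter fun N => MeasurableSet.iUnion fun x => MeasurableSet.iUnion fun _ =>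
    meas_HS E e x

theorem meas_killed (c : ℕ → Bool) (E : ℕ → List Bool → ℕ → Bool) (e : ℕ) :
    MeasurableSet {B | Killed c (HS E e B)} := by
  have : {B | Killed c (HS E e B)} = ⋃ D : Finset ℕ, ⋃ (_ : ∃ y0, ∀ y, y0 ≤ y →
      ∃ d ∈ D, ∃ d' ∈ D, c (d + y) ≠ c (d' + y)), ⋂ d ∈ D, {B | d ∈ HS E e B} := by
    ext B
    simp only [Killed, Set.mem_iUnion, Set.mem_iInter, exists_prop]
    constructor
    · rintro ⟨D, h1, h2⟩
      exact ⟨D, h2, h1⟩
    · rintro ⟨D, h2, h1⟩
      exact ⟨D, h1, h2⟩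
  rw [this]
  refine MeasurableSet.iUnion fun D => MeasurableSet.iUnion fun _ => ?_
  exact Finset.measurableSet_biInter D (fun d _ => meas_HS E e d)

theorem mm (hCM : S_CM) (hDS : S_DS) (hTF : S_TF) : S_MM := by
  obtain ⟨E, hE, h1, h2⟩ := hTF
  obtain ⟨c, hc, h3⟩ := hCM E hE
  refine ⟨c, hc, ?_⟩
  have h4 := hDS (fun e => {B | (HS E e B).Infinite ∧ ¬ Killed c (HS E e B)})
    (fun e => (meas_inf E e).inter (meas_killed c E e).compl) h3 (by
      intro e σ
      obtain ⟨e', he'⟩ := h1 e σ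
      refine ⟨e', ?_⟩
      ext B
      simp only [he']
      exact Iff.rfl)
  have h5 : ∀ᵐ B ∂mu, ∀ e, ¬ ((HS E e B).Infinite ∧ ¬ Killed c (HS E e B)) := by
    rw [ae_all_iff]
    intro e
    rw [ae_iff]
    simpa using h4 e
  filter_upwards [h5] with B hB h hh hinf
  obtain ⟨e, he⟩ := h2 h B hh
  by_contra hcon
  refine hB e ⟨?_, ?_⟩
  · rw [he]; exact hinf
  · rw [he]; exact hcon

/-! ### the run depends on finitely many random numbers -/

theorem Run.congr {f r r' : ℕ → ℕ} {n : ℕ} {l : List ℕ} (h : Run f r n l)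
    (hr : ∀ i < n, r i = r' i) : Run f r' n l := by
  induction h with
  | nil => exact Run.nil
  | @step n l y _ h2 h3 ih =>
    exact Run.step (ih fun i hi => hr i (by omega)) h2 (by rw [h3]; exact hr n (by omega))

theorem meas_rnd (k n : ℕ) : Measurable (fun Y : ℕ → Bool => rnd k Y n) := by
  unfold rnd
  refine Finset.measurable_sum _ (fun i _ => ?_)
  have h1 : Measurable (fun b : Bool => b.toNat * 2 ^ i) := measurable_of_finite _
  exact h1.comp (measurable_pi_apply _)

theorem meas_run (f : ℕ → ℕ) (k : ℕ) :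
    MeasurableSet {Y : ℕ → Bool | ∀ n, ∃ l, Run f (rnd k Y) n l} := by
  have h1 : {Y : ℕ → Bool | ∀ n, ∃ l, Run f (rnd k Y) n l} =
      ⋂ n, ⋃ l, {Y : ℕ → Bool | Run f (rnd k Y) n l} := by
    ext Y; simp
  rw [h1]
  refine MeasurableSet.iInter fun n => MeasurableSet.iUnion fun l => ?_
  have h2 : Measurable (fun Y : ℕ → Bool => (fun i : Fin n => rnd k Y i)) :=
    measurable_pi_lambda _ (fun i => meas_rnd k i)
  have h3 : {Y : ℕ → Bool | Run f (rnd k Y) n l} = (fun Y : ℕ → Bool =>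
      (fun i : Fin n => rnd k Y i)) ⁻¹' {ρ | ∃ r, (∀ i : Fin n, r i = ρ i) ∧ Run f r n l} := by
    ext Y
    constructor
    · intro h
      exact ⟨rnd k Y, fun i => rfl, h⟩
    · rintro ⟨r, hr, h⟩
      exact h.congr (fun i hi => hr ⟨i, hi⟩)
  rw [h3]
  exact h2 (Set.to_countable _).measurableSet

theorem rr (h1 : S_R1) (h2 : S_R2) : S_RR := by
  intro f hf
  have key : ∀ k : ℕ, mu {Y | ∀ n, ∃ l, Run f (rnd k Y) n l}ᶜ ≤ (2⁻¹ : ℝ≥0∞) ^ k := by
    intro k
    rw [prob_compl_eq_one_sub (meas_run f k)]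
    have := h1 f hf k
    exact tsub_le_iff_tsub_le.1 this
  rw [ae_iff]
  refine le_antisymm (ENNReal.le_of_forall_pos_le_add fun ε hε _ => ?_) bot_le
  rw [zero_add]
  obtain ⟨k, hk⟩ := ENNReal.exists_inv_two_pow_lt (a := (ε : ℝ≥0∞)) (by positivity)
  refine le_trans (measure_mono ?_) ((key k).trans ?_)
  · intro Y hY hcon
    exact hY (h2 f k Y hcon)
  · exact hk.le

end Pool.Agent.Q205.NH
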