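import Mathlib
import Pool.Agent.H715R3.D6

set_option autoImplicit false

/-!
# Project NH: a computable two-colouring whose Hindman pairs avoid almost every oracle

Definitions.
-/

namespace Pool.Agent.Q205.NH

open Pool.Agent.Helper743 Pool.Agent.H715R3.Disp MeasureTheory
open scoped ENNReal

/-- The first `n` bits of a point of Cantor space. -/
def bits (B : ℕ → Bool) (n : ℕ) : List Bool := (List.range n).map B

/-- A uniformly computable family of enumeration procedures with oracle: `E e ρ x = true` means that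
procedure `e` has put `x` into its set after reading the string `ρ`. -/
structure Enum (E : ℕ → List Bool → ℕ → Bool) : Prop where
  comp : Computable fun q : (ℕ × List Bool) × ℕ => E q.1.1 q.1.2 q.2
  mono : ∀ e ρ ρ' x, ρ <+: ρ' → E e ρ x = true → E e ρ' x = true

/-- The set enumerated by procedure `e` with oracle `B`. -/
def HS (E : ℕ → List Bool → ℕ → Bool) (e : ℕ) (B : ℕ → Bool) : Set ℕ :=
  {x | ∃ n, E e (bits B n) x = true}

/-- Some finite subset of `H` has only finitely many translates on which `c` is constant. -/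
def Killed (c : ℕ → Bool) (H : Set ℕ) : Prop :=
  ∃ D : Finset ℕ, (∀ d ∈ D, d ∈ H) ∧ ∃ y0, ∀ y, y0 ≤ y → ∃ d ∈ D, ∃ d' ∈ D, c (d + y) ≠ c (d' + y)

/-- The half (lower or upper) to which the residue of `x` modulo `2^(K+1)` belongs. -/
def side (K x : ℕ) : Bool := decide (x % 2 ^ (K + 1) < 2 ^ K)

/-- All elements of `D` are congruent modulo `M`, and for every cut `q` and every rotation `r` the
rotation colouring `d ↦ side K (j * (d / M) + r)` is not constant on the elements of `D` below the
cut or not constant on the elements of `D` from the cut on. -/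
def Good (M K j L : ℕ) (D : Finset ℕ) : Prop :=
  (∀ d ∈ D, ∀ d' ∈ D, d % M = d' % M) ∧ ∀ q, q ≤ L → ∀ r, r < 2 ^ (K + 1) →
    (∃ d ∈ D, ∃ d' ∈ D, d < q ∧ d' < q ∧
      side K (j * (d / M) + r) ≠ side K (j * (d' / M) + r)) ∨
    (∃ d ∈ D, ∃ d' ∈ D, q ≤ d ∧ q ≤ d' ∧
      side K (j * (d / M) + r) ≠ side K (j * (d' / M) + r))

/-- The string `σ` of length `L` makes procedure `e` enumerate a good subset of `[0, L)`. -/
def GoodStr (E : ℕ → List Bool → ℕ → Bool) (e M K j L : ℕ) (σ : List Bool) : Prop :=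
  ∃ D : Finset ℕ, Good M K j L D ∧ ∀ d ∈ D, d < L ∧ E e σ d = true

open Classical in
/-- At least half of the strings of length `L` make procedure `e` enumerate a good set. -/
def Cond (E : ℕ → List Bool → ℕ → Bool) (e M K j L : ℕ) : Prop :=
  2 ^ L ≤ 2 * (Finset.univ.filter fun σ : Fin L → Bool => GoodStr E e M K j L (List.ofFn σ)).card

/-! ### The colouring constructed from a decidable condition `CB e M w` -/

/-- The components `K`, `j`, `L` of a witness `w`. -/
def wK (w : ℕ) : ℕ := w.unpair.1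
/-- The multiplier of a witness. -/
def wj (w : ℕ) : ℕ := w.unpair.2.unpair.1
/-- The length of a witness. -/
def wL (w : ℕ) : ℕ := w.unpair.2.unpair.2

/-- `w + 1` for the least `w < t` with `CB e M w = true`, and `0` if there is none. -/
def fw (CB : ℕ → ℕ → ℕ → Bool) (e M : ℕ) : ℕ → ℕ
  | 0 => 0
  | t + 1 => if fw CB e M t = 0 then (if CB e M t = true then t + 1 else 0) else fw CB e M t

/-- The modulus of level `i` at stage `t`. -/
def Mv (CB : ℕ → ℕ → ℕ → Bool) (t : ℕ) : ℕ → ℕ
  | 0 => 1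
  | i + 1 => if fw CB i (Mv CB t i) t = 0 then Mv CB t i
      else Mv CB t i * 2 ^ (wK (fw CB i (Mv CB t i) t - 1) + 1 + wL (fw CB i (Mv CB t i) t - 1))

/-- The contribution (`0` or `1`) of level `i` at stage `t` to the colour of `x`. -/
def ctr (CB : ℕ → ℕ → ℕ → Bool) (t i x : ℕ) : ℕ :=
  if fw CB i (Mv CB t i) t ≠ 0 ∧ Mv CB t (i + 1) ≤ 2 ^ t then
    (side (wK (fw CB i (Mv CB t i) t - 1)) (wj (fw CB i (Mv CB t i) t - 1) *
      (x / Mv CB t i))).toNat
  else 0

/-- The colouring: at `x` the stage is the binary logarithm of `x`. -/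
def col (CB : ℕ → ℕ → ℕ → Bool) (x : ℕ) : Bool :=
  decide ((∑ i ∈ Finset.range (Nat.log 2 x), ctr CB (Nat.log 2 x) i x) % 2 = 1)

/-- `B` with its first bits overwritten by `σ`. -/
def ow (σ : List Bool) (B : ℕ → Bool) : ℕ → Bool :=
  fun n => if n < σ.length then σ.getD n false else B n

/-! ### Rainbow sets -/

/-- The colouring `f` of pairs, the colour of `{a, b}`, `a < b`, being `f (Nat.pair a b)`, gives each
colour to at most two pairs. -/
def TwoBounded (f : ℕ → ℕ) : Prop :=
  ∀ i, {p : ℕ × ℕ | p.1 < p.2 ∧ f (Nat.pair p.1 p.2) = i}.encard ≤ 2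

/-- `R` is a rainbow set for `f`. -/
def RainbowSet (f : ℕ → ℕ) (R : Set ℕ) : Prop :=
  ∀ a ∈ R, ∀ b ∈ R, ∀ a' ∈ R, ∀ b' ∈ R, a < b → a' < b' →
    f (Nat.pair a b) = f (Nat.pair a' b') → a = a' ∧ b = b'

/-- `y` may be added to the finite rainbow set `l`. -/
def New (f : ℕ → ℕ) (l : List ℕ) (y : ℕ) : Prop :=
  (∀ a ∈ l, a < y) ∧ (∀ a ∈ l, ∀ b ∈ l, a ≠ b → f (Nat.pair a y) ≠ f (Nat.pair b y)) ∧
    ∀ a ∈ l, ∀ b ∈ l, ∀ k ∈ l, a < b → f (Nat.pair k y) ≠ f (Nat.pair a b)

/-- `l` is the list of the first `n` elements of the run of the process which at stage `n` takes the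
element number `r n` (counting from `0`) of those which may be added. -/
inductive Run (f r : ℕ → ℕ) : ℕ → List ℕ → Prop
  | nil : Run f r 0 []
  | step {n : ℕ} {l : List ℕ} {y : ℕ} : Run f r n l → New f l y →
      {z | z < y ∧ New f l z}.ncard = r n → Run f r (n + 1) (l ++ [y])

/-- The `n`-th random number: the number below `2 ^ (2 * n + 1 + k)` with the binary digits
`Y (Nat.pair n i)`. -/
def rnd (k : ℕ) (Y : ℕ → Bool) (n : ℕ) : ℕ :=
  ∑ i ∈ Finset.range (2 * n + 1 + k), (Y (Nat.pair n i)).toNat * 2 ^ i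

/-- Interleaving of two points of Cantor space. -/
def mix (A B : ℕ → Bool) : ℕ → Bool := fun n => if n % 2 = 0 then A (n / 2) else B (n / 2)

end Pool.Agent.Q205.NH
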