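import Pool.Agent.Q205.NH.Defs
import Pool.Agent.Helper617.RM.Defs

set_option autoImplicit false

/-!
# Project NH: the `ω`-structure of a chain of oracles is a model of `RCA₀`
-/

namespace Pool.Agent.Q205.NH

open Pool.Agent.Helper743 Pool.Agent.H715R3.Disp
open Pool.Agent.Helper617.RM (L2Structure IsModelRCA0)

/-- The standard numbers with the sets computable from one of the oracles `Z n`. -/
def omega (Z : ℕ → (ℕ → Bool)) : L2Structure.{0} where
  M := ℕ
  zero := 0
  one := 1
  add := (· + ·)
  mul := (· * ·)
  lt := (· < ·)
  Sets := {A | ∃ n, ∃ h : ℕ → Bool, TR (bn h) (bn (Z n)) ∧ A = {x | h x = true}}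

/-- JOB MD (the structure is a model of `RCA₀`).

Proof.  The basic axioms and induction are true for the standard numbers (`Nat.rec`).  For
comprehension: the finitely many set parameters of `θ` and `ψ` are computable from one oracle
`G = bn (Z n)`, since the chain is increasing (`TR.trans`).  For a `Δ⁰₀` formula `φ` all whose set
parameters are computable from `G`, every assignment `v` and every `m`, the function
`z ↦ if φ.Holds (a_1, ..., a_m, v) then 1 else 0`, `z` the code of the list `[a_1, ..., a_m]`, is
recursive in `G` (`RecT`): induction on `φ`; values of terms are computable functions of the list;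
`mem` is a query of a function computable from `G`; `ball` is a bounded search (primitive recursion,
`RecT.prec`).  If `(∃ k, θ) ↔ (∀ k, ψ)` then for every `n` there is `k` with `θ(k, n)` or
`¬ ψ(k, n)`, the least such `k` is found by `RecT.find`, and `n` belongs to the set iff
`θ(k, n)` holds for this `k`. -/
def S_MD : Prop := ∀ Z : ℕ → (ℕ → Bool), (∀ n, TR (bn (Z n)) (bn (Z (n + 1)))) →
  IsModelRCA0 (omega Z)

end Pool.Agent.Q205.NH
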