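import Pool.Agent.Q205.NH.Asm
import Pool.Agent.Q205.NH.Stm2

set_option autoImplicit false

/-!
# Project NH: final consequences
-/

namespace Pool.Agent.Q205.NH

open Pool.Agent.Helper743 Pool.Agent.H715R3.Disp MeasureTheory
open Pool.Agent.Helper617.RM (L2Structure IsModelRCA0)
open scoped ENNReal

/-- A killed infinite set is no solution for sums of exactly `n` elements, `n ≥ 2`. -/
theorem not_mono_of_killed {c : ℕ → Bool} {H : Set ℕ} (hH : H.Infinite) (hk : Killed c H)
    {n : ℕ} (hn : 2 ≤ n) :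
    ¬ ∃ i, ∀ F : Finset ℕ, (∀ x ∈ F, x ∈ H) → F.card = n → c (∑ x ∈ F, x) = i := by
  rintro ⟨i, hi⟩
  obtain ⟨D, hD, y0, hy⟩ := hk
  -- `n - 1` elements of `H` above `D` and `y0`
  have key : ∀ m b : ℕ, ∃ G : Finset ℕ, (∀ x ∈ G, x ∈ H ∧ b < x) ∧ G.card = m := by
    intro m b
    have h1 : (H ∩ Set.Ioi b).Infinite := by
      have : H ∩ Set.Ioi b = H \ Set.Iic b := by
        ext x; simp
      rw [this]
      exact hH.diff (Set.finite_Iic b)
    obtain ⟨G, hG1, hG2⟩ := h1.exists_subset_card_eq m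
    exact ⟨G, fun x hx => hG1 hx, hG2⟩
  obtain ⟨G, hG1, hG2⟩ := key (n - 1) (D.sup id + y0)
  have hne : G.Nonempty := by
    rw [← Finset.card_pos, hG2]; omega
  obtain ⟨g, hg⟩ := hne
  have h2 : y0 ≤ ∑ x ∈ G, x := by
    have h3 : g ≤ ∑ x ∈ G, x := Finset.single_le_sum (f := fun x => x) (fun _ _ => Nat.zero_le _) hg
    have := (hG1 g hg).2
    omega
  obtain ⟨d, hd, d', hd', hne⟩ := hy _ h2
  have h4 : ∀ e ∈ D, c (e + ∑ x ∈ G, x) = i := by
    intro e he
    have h5 : e ∉ G := by
      intro h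
      have h6 := (hG1 e h).2
      have h7 : e ≤ D.sup id := Finset.le_sup (f := id) he
      omega
    have h8 := hi (insert e G) (by
      intro x hx
      rcases Finset.mem_insert.1 hx with rfl | hx
      · exact hD _ he
      · exact (hG1 x hx).1) (by
      rw [Finset.card_insert_of_notMem h5, hG2]; omega)
    rwa [Finset.sum_insert h5] at h8
  exact hne ((h4 d hd).trans (h4 d' hd').symm)

/-! ### the code of a pair in the standard numbers -/

/-- The injective code `(a + b)² + a`. -/
def cd (a b : ℕ) : ℕ := (a + b) * (a + b) + a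

theorem cd_inj {a b a' b' : ℕ} (h : cd a b = cd a' b') : a = a' ∧ b = b' := by
  unfold cd at h
  have h1 : a + b = a' + b' := by
    rcases lt_trichotomy (a + b) (a' + b') with h2 | h2 | h2
    · exfalso
      nlinarith
    · exact h2
    · exfalso
      nlinarith
  rw [h1] at h
  omega

theorem cd_computable : Computable (fun z : ℕ => cd z.unpair.1 z.unpair.2) := by
  have h1 : Primrec (fun z : ℕ => z.unpair.1) := Primrec.fst.comp Primrec.unpair
  have h2 : Primrec (fun z : ℕ => z.unpair.2) := Primrec.snd.comp Primrec.unpair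
  have h3 := Primrec.nat_add.comp h1 h2
  exact (Primrec.nat_add.comp (Primrec.nat_mul.comp h3 h3) h1).to_comp

/-- A colouring of pairs is computable from its graph. -/
theorem tr_of_graph {f : ℕ → ℕ → ℕ} {G : ℕ → ℕ} {h : ℕ → Bool} (hh : TR (bn h) G)
    (hg : ∀ z, h z = true ↔ ∃ a b, a < b ∧ z = cd (cd a b) (f a b)) :
    TR (fun z => if z.unpair.1 < z.unpair.2 then f z.unpair.1 z.unpair.2 else 0) G := by
  classical
  -- test whether `v` is the value at `z`
  have hc : Computable (fun w : ℕ => cd (cd w.unpair.1.unpair.1 w.unpair.1.unpair.2)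
      w.unpair.2) := by
    have h1 : Primrec (fun w : ℕ => w.unpair.1.unpair.1) :=
      Primrec.fst.comp (Primrec.unpair.comp (Primrec.fst.comp Primrec.unpair))
    have h2 : Primrec (fun w : ℕ => w.unpair.1.unpair.2) :=
      Primrec.snd.comp (Primrec.unpair.comp (Primrec.fst.comp Primrec.unpair))
    have h3 : Primrec (fun w : ℕ => w.unpair.2) := Primrec.snd.comp Primrec.unpair
    have h4 : Primrec (fun w : ℕ => cd w.unpair.1.unpair.1 w.unpair.1.unpair.2) := by
      have h5 := Primrec.nat_add.comp h1 h2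
      exact Primrec.nat_add.comp (Primrec.nat_mul.comp h5 h5) h1
    have h6 := Primrec.nat_add.comp h4 h3
    exact (Primrec.nat_add.comp (Primrec.nat_mul.comp h6 h6) h4).to_comp
  have hlt : Computable (fun w : ℕ => if w.unpair.1.unpair.1 < w.unpair.1.unpair.2 then 1 else 0) := by
    have h1 : Primrec (fun w : ℕ => w.unpair.1.unpair.1) :=
      Primrec.fst.comp (Primrec.unpair.comp (Primrec.fst.comp Primrec.unpair))
    have h2 : Primrec (fun w : ℕ => w.unpair.1.unpair.2) :=
      Primrec.snd.comp (Primrec.unpair.comp (Primrec.fst.comp Primrec.unpair))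
    exact (Primrec.ite (Primrec.nat_lt.comp h1 h2) (Primrec.const 1) (Primrec.const 0)).to_comp
  have h1 : RecT {(G : ℕ →. ℕ)} (fun w => bn h (cd (cd w.unpair.1.unpair.1 w.unpair.1.unpair.2)
      w.unpair.2)) := RecT.comp hh (Computable.recT hc)
  have h2 : RecT {(G : ℕ →. ℕ)} (fun w => Nat.pair (bn h (cd (cd w.unpair.1.unpair.1
      w.unpair.1.unpair.2) w.unpair.2))
      (if w.unpair.1.unpair.1 < w.unpair.1.unpair.2 then 1 else 0)) :=
    RecT.pair h1 (Computable.recT hlt)
  have ht : Computable (fun u : ℕ => if u.unpair.2 = 0 then 0 else 1 - u.unpair.1) := by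
    have e1 : Primrec (fun u : ℕ => u.unpair.1) := Primrec.fst.comp Primrec.unpair
    have e2 : Primrec (fun u : ℕ => u.unpair.2) := Primrec.snd.comp Primrec.unpair
    exact (Primrec.ite (Primrec.eq.comp e2 (Primrec.const 0)) (Primrec.const 0)
      (Primrec.nat_sub.comp (Primrec.const 1) e1)).to_comp
  have h3 := (Computable.recT (O := {(G : ℕ →. ℕ)}) ht).comp h2
  have hex : ∀ z, ∃ v, (fun w => (fun u : ℕ => if u.unpair.2 = 0 then 0 else 1 - u.unpair.1)
      (Nat.pair (bn h (cd (cd w.unpair.1.unpair.1 w.unpair.1.unpair.2) w.unpair.2))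
      (if w.unpair.1.unpair.1 < w.unpair.1.unpair.2 then 1 else 0))) (Nat.pair z v) = 0 := by
    intro z
    by_cases hz : z.unpair.1 < z.unpair.2
    · refine ⟨f z.unpair.1 z.unpair.2, ?_⟩
      have := (hg (cd (cd z.unpair.1 z.unpair.2) (f z.unpair.1 z.unpair.2))).2 ⟨_, _, hz, rfl⟩
      simp [hz, bn, this]
    · exact ⟨0, by simp [hz]⟩
  have h4 := RecT.find h3 hex
  have h5 : (fun a => Nat.find (hex a)) =
      (fun z => if z.unpair.1 < z.unpair.2 then f z.unpair.1 z.unpair.2 else 0) := by
    funext z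
    rw [Nat.find_eq_iff]
    by_cases hz : z.unpair.1 < z.unpair.2
    · rw [if_pos hz]
      constructor
      · have := (hg (cd (cd z.unpair.1 z.unpair.2) (f z.unpair.1 z.unpair.2))).2 ⟨_, _, hz, rfl⟩
        simp [hz, bn, this]
      · intro v hv hcon
        have hb : h (cd (cd z.unpair.1 z.unpair.2) v) = true := by
          by_contra hb
          rw [Bool.not_eq_true] at hb
          simp [hz, bn, hb] at hcon
        obtain ⟨a, b, -, hab⟩ := (hg _).1 hb
        obtain ⟨e1, e2⟩ := cd_inj hab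
        obtain ⟨e3, e4⟩ := cd_inj e1
        rw [← e3, ← e4] at e2
        omega
    · rw [if_neg hz]
      constructor
      · simp [hz]
      · intro v hv; exact absurd hv (Nat.not_lt_zero v)
  rw [h5] at h4
  exact h4

end Pool.Agent.Q205.NH
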