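import Pool.Agent.Q205.NH.Fin

set_option autoImplicit false

/-!
# Project NH: the principles in structures for second-order arithmetic
-/

namespace Pool.Agent.Q205.NH

open Pool.Agent.Helper743 Pool.Agent.H715R3.Disp MeasureTheory
open Pool.Agent.Helper617.RM (L2Structure IsModelRCA0)
open scoped ENNReal

universe u

/-- The sum, computed in the structure, of a (standard) finite list of numbers. -/
def sumL (N : L2Structure.{u}) : List N.M → N.M
  | [] => N.zero
  | a :: l => N.add a (sumL N l)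

/-- `X` is unbounded (infinite) in the structure. -/
def Unbounded (N : L2Structure.{u}) (X : Set N.M) : Prop := ∀ a, ∃ x ∈ X, N.lt a x

/-- The code `(a + b)² + a` of a pair of numbers, computed in the structure. -/
def code (N : L2Structure.{u}) (a b : N.M) : N.M := N.add (N.mul (N.add a b) (N.add a b)) a

/-- The rainbow Ramsey theorem for pairs and 2-bounded colourings in the structure `N`: for every
colouring `f` of the pairs `a < b` whose graph (coded by numbers) is one of the sets of the structure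
and which gives each colour to at most two pairs, one of the unbounded sets of the structure is a
rainbow set. -/
def RRT22 (N : L2Structure.{u}) : Prop :=
  ∀ f : N.M → N.M → N.M, {z | ∃ a b, N.lt a b ∧ z = code N (code N a b) (f a b)} ∈ N.Sets →
    (∀ a b a' b' a'' b'', N.lt a b → N.lt a' b' → N.lt a'' b'' → f a b = f a' b' →
      f a b = f a'' b'' → (a = a' ∧ b = b') ∨ (a = a'' ∧ b = b'') ∨ (a' = a'' ∧ b' = b'')) →
    ∃ R ∈ N.Sets, Unbounded N R ∧ ∀ a ∈ R, ∀ b ∈ R, ∀ a' ∈ R, ∀ b' ∈ R, N.lt a b → N.lt a' b' →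
      f a b = f a' b' → a = a' ∧ b = b'

/-- Hindman's theorem for sums of exactly `n` distinct elements and `k` colours in the structure
`N`: for every colouring `c` of the numbers with `k` colours all colour classes of which are sets of the
structure there is an unbounded set `X` of the structure such that all sums of exactly `n` distinct
elements of `X` have the same colour. -/
def HTexact (N : L2Structure.{u}) (n k : ℕ) : Prop :=
  ∀ c : N.M → Fin k, (∀ i, {x | c x = i} ∈ N.Sets) →
    ∃ X ∈ N.Sets, Unbounded N X ∧ ∃ i, ∀ l : List N.M, l.length = n → l.Nodup →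
      (∀ x ∈ l, x ∈ X) → c (sumL N l) = i

/-- The structure with the standard numbers and the sets in `S`. -/
def std (S : Set (Set ℕ)) : L2Structure.{0} where
  M := ℕ
  zero := 0
  one := 1
  add := (· + ·)
  mul := (· * ·)
  lt := (· < ·)
  Sets := S

theorem sumL_std (S : Set (Set ℕ)) (l : List ℕ) : sumL (std S) l = l.sum := by
  induction l with
  | nil => rfl
  | cons a l ih =>
    have h1 : (sumL (std S) (a :: l) : ℕ) = Nat.add a (sumL (std S) l) := rfl
    have h2 : Nat.add a (sumL (std S) l) = Nat.add a l.sum := congrArg (Nat.add a) ih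
    have h3 : Nat.add a l.sum = (a :: l).sum := by rw [List.sum_cons]; rfl
    exact (h1.trans h2).trans h3

theorem unbounded_iff (S : Set (Set ℕ)) (X : Set ℕ) : Unbounded (std S) X ↔ X.Infinite := by
  constructor
  · intro h
    exact Set.infinite_of_forall_exists_gt (fun a => h a)
  · intro h a
    obtain ⟨x, hx, ha⟩ := Set.Infinite.exists_gt h a
    exact ⟨x, hx, ha⟩

/-- The rainbow Ramsey theorem for the sets computable from a chain of oracles. -/
theorem rrt_aux {Z : ℕ → (ℕ → Bool)} {n : ℕ} {h : ℕ → Bool} (f : ℕ → ℕ → ℕ)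
    (hR : ∀ n f, TR f (bn (Z n)) → TwoBounded f →
      ∃ h : ℕ → Bool, TR (bn h) (bn (Z (n + 1))) ∧ {x | h x = true}.Infinite ∧
        RainbowSet f {x | h x = true})
    (hh : TR (bn h) (bn (Z n))) (hg : ∀ z, h z = true ↔ ∃ a b, a < b ∧ z = cd (cd a b) (f a b))
    (hb : ∀ a b a' b' a'' b'', a < b → a' < b' → a'' < b'' → f a b = f a' b' →
      f a b = f a'' b'' → (a = a' ∧ b = b') ∨ (a = a'' ∧ b = b'') ∨ (a' = a'' ∧ b' = b'')) :
    ∃ g : ℕ → Bool, TR (bn g) (bn (Z (n + 1))) ∧ {x | g x = true}.Infinite ∧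
      ∀ a ∈ {x | g x = true}, ∀ b ∈ {x | g x = true}, ∀ a' ∈ {x | g x = true},
      ∀ b' ∈ {x | g x = true}, a < b → a' < b' → f a b = f a' b' → a = a' ∧ b = b' := by
  have h1 := tr_of_graph hh hg
  have h2 : TwoBounded (fun z => if z.unpair.1 < z.unpair.2 then f z.unpair.1 z.unpair.2 else 0) := by
    intro i
    by_contra hcon
    rw [not_le] at hcon
    have h3 := Order.add_one_le_of_lt hcon
    have h3' : (2 : ℕ∞) + 1 = 3 := by norm_num
    rw [h3'] at h3
    obtain ⟨t, ht, ht3⟩ := Set.exists_subset_encard_eq h3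
    obtain ⟨p, q, r, hpq, hpr, hqr, rfl⟩ := Set.encard_eq_three.1 ht3
    have hp := ht (show p ∈ ({p, q, r} : Set (ℕ × ℕ)) by simp)
    have hq := ht (show q ∈ ({p, q, r} : Set (ℕ × ℕ)) by simp)
    have hr := ht (show r ∈ ({p, q, r} : Set (ℕ × ℕ)) by simp)
    simp only [Set.mem_ofPred_eq, Nat.unpair_pair] at hp hq hr
    rw [if_pos hp.1] at hp
    rw [if_pos hq.1] at hq
    rw [if_pos hr.1] at hr
    have := hb p.1 p.2 q.1 q.2 r.1 r.2 hp.1 hq.1 hr.1 (hp.2.trans hq.2.symm)
      (hp.2.trans hr.2.symm)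
    rcases this with ⟨e1, e2⟩ | ⟨e1, e2⟩ | ⟨e1, e2⟩
    · exact hpq (Prod.ext e1 e2)
    · exact hpr (Prod.ext e1 e2)
    · exact hqr (Prod.ext e1 e2)
  obtain ⟨g, hg1, hg2, hg3⟩ := hR n _ h1 h2
  refine ⟨g, hg1, hg2, ?_⟩
  intro a ha b hb' a' ha' b' hb'' hab hab' hff
  refine hg3 a ha b hb' a' ha' b' hb'' hab hab' ?_
  simp only [Nat.unpair_pair]
  rw [if_pos hab, if_pos hab']
  exact hff

/-- The final construction, from the main theorem on almost every oracle, the chain of oracles and
the verification of the axioms. -/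
theorem fin_omega (hMM : S_MM) (hID : S_ID) (hMD : S_MD) : ∃ (S : Set (Set ℕ)) (c : ℕ → Bool),
    IsModelRCA0 (std S) ∧ RRT22 (std S) ∧ Computable c ∧ {x | c x = true} ∈ S ∧
    (∀ n, 2 ≤ n → ∀ X ∈ S, X.Infinite → ¬ ∃ i, ∀ F : Finset ℕ, (∀ x ∈ F, x ∈ X) → F.card = n →
      c (∑ x ∈ F, x) = i) ∧
    ∀ n k, 2 ≤ n → 2 ≤ k → ¬ HTexact (std S) n k := by
  classical
  obtain ⟨c, hc, hae⟩ := hMM
  obtain ⟨Z, hQ, hZ, hR⟩ := hID (fun G => ∀ h : ℕ → Bool, TR (bn h) G →
    {x | h x = true}.Infinite → Killed c {x | h x = true})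
    (fun g g' hg hQ h hh hinf => hQ h (hh.trans hg) hinf) hae
  set S : Set (Set ℕ) := {A | ∃ n, ∃ h : ℕ → Bool, TR (bn h) (bn (Z n)) ∧ A = {x | h x = true}}
    with hS
  have hstd : std S = omega Z := rfl
  have hcl : ∀ (g : ℕ → Bool), Computable g → {x | g x = true} ∈ S := by
    intro g hg
    refine ⟨0, g, ?_, rfl⟩
    have : Computable (bn g) := by
      have := Computable.cond hg (Computable.const 1) (Computable.const 0)
      refine this.of_eq (fun a => ?_)
      unfold bn
      cases g a <;> rfl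
    exact Computable.recT this
  have hkill : ∀ X ∈ S, X.Infinite → Killed c X := by
    rintro X ⟨n, h, hh, rfl⟩ hinf
    exact hQ n h hh hinf
  have hno : ∀ n, 2 ≤ n → ∀ X ∈ S, X.Infinite → ¬ ∃ i, ∀ F : Finset ℕ, (∀ x ∈ F, x ∈ X) →
      F.card = n → c (∑ x ∈ F, x) = i :=
    fun n hn X hX hinf => not_mono_of_killed hinf (hkill X hX hinf) hn
  refine ⟨S, c, ?_, ?_, hc, hcl c hc, hno, ?_⟩
  · rw [hstd]; exact hMD Z hZ
  · -- the rainbow Ramsey theorem
    intro f hf hb
    obtain ⟨n, h, hh, he⟩ := hf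
    obtain ⟨g, hg1, hg2, hg3⟩ := rrt_aux (Z := Z) f hR hh (fun z => (Set.ext_iff.1 he z).symm) hb
    exact ⟨{x | g x = true}, ⟨n + 1, g, hg1, rfl⟩, (unbounded_iff S _).2 hg2, hg3⟩
  · intro n k hn hk hHT
    have hlt : ∀ b : Bool, b.toNat < k := fun b => lt_of_le_of_lt (Bool.toNat_le b) (by omega)
    obtain ⟨X, hX, hunb, i, hi⟩ := hHT (fun x => ⟨(c x).toNat, hlt _⟩) (by
      intro i
      have hd : Computable (fun x => decide ((c x).toNat = i.1)) := by
        have h1 : Computable (fun x : ℕ => (c x).toNat) := by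
          have := Computable.cond hc (Computable.const 1) (Computable.const 0)
          exact this.of_eq (fun a => by cases c a <;> rfl)
        exact (Primrec.eq.decide.to_comp).comp h1 (Computable.const i.1)
      have h1 := hcl _ hd
      have h2 : {x : ℕ | (⟨(c x).toNat, hlt _⟩ : Fin k) = i} =
          {x : ℕ | decide ((c x).toNat = i.1) = true} := by
        ext x
        simp [Fin.ext_iff]
      rw [← h2] at h1
      exact h1)
    refine hno n hn X hX ((unbounded_iff S X).1 hunb) ⟨decide (i.1 = 1), fun F hF hcard => ?_⟩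
    have h1 := hi F.toList ((Finset.length_toList F).trans hcard) (Finset.nodup_toList F)
      (fun x hx => hF x (Finset.mem_toList.1 hx))
    rw [sumL_std] at h1
    have h2 : (F.toList.sum : ℕ) = ∑ x ∈ F, x := by
      exact Finset.sum_toList F
    have h3 := congrArg Fin.val h1
    simp only [h2] at h3
    cases hcc : c (∑ x ∈ F, x) <;> rw [hcc] at h3 <;> simp at h3 <;> simp [← h3]

end Pool.Agent.Q205.NH
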