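import Pool.Agent.Q205.NH.Fin

set_option autoImplicit false

/-!
# Project NH: degrees
-/

namespace Pool.Agent.Q205.NH

open Pool.Agent.Helper743 Pool.Agent.H715R3.Disp MeasureTheory
open scoped ENNReal

open Classical in
/-- The characteristic function of a set of natural numbers, as an oracle. -/
noncomputable def chi (A : Set ℕ) : ℕ →. ℕ := fun n => Part.some (if n ∈ A then 1 else 0)

open Classical in
theorem chi_eq (A : Set ℕ) : chi A = ((bn (fun n => decide (n ∈ A)) : ℕ → ℕ) : ℕ →. ℕ) := by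
  funext n
  unfold chi bn
  by_cases h : n ∈ A <;> simp [h]

theorem chi_eq' (B : ℕ → Bool) : chi {n | B n = true} = ((bn B : ℕ → ℕ) : ℕ →. ℕ) := by
  funext n
  unfold chi bn
  by_cases h : B n = true
  · simp [h]
  · rw [Bool.not_eq_true] at h
    simp [h]

/-- The final form, from the main theorem on almost every oracle and the avoidance of a partial
function. -/
theorem fin_deg (hMM : S_MM) (hDN : S_DN) : ∃ c : ℕ → Bool, Computable c ∧
    (∀ᵐ X ∂mu, ∀ H : Set ℕ, H.Infinite → TuringReducible (chi H) (chi {n | X n = true}) →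
      Killed c H) ∧
    ∀ φ : ℕ → (ℕ →. ℕ), ∃ A : Set ℕ,
      (∃ f : ℕ → ℕ, TuringReducible (fun n => Part.some (f n)) (chi A) ∧ ∀ e, f e ∉ φ e e) ∧
      ∀ H : Set ℕ, H.Infinite → TuringReducible (chi H) (chi A) → Killed c H := by
  classical
  obtain ⟨c, hc, hae⟩ := hMM
  have key : ∀ B : ℕ → Bool, (∀ h : ℕ → Bool, TR (bn h) (bn B) → {x | h x = true}.Infinite →
      Killed c {x | h x = true}) → ∀ H : Set ℕ, H.Infinite →
      TuringReducible (chi H) (chi {n | B n = true}) → Killed c H := by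
    intro B hB H hH hT
    rw [chi_eq, chi_eq', ← TR_iff] at hT
    have h1 : {x : ℕ | decide (x ∈ H) = true} = H := by
      ext x; simp
    have h2 := hB _ hT (by rw [h1]; exact hH)
    rwa [h1] at h2
  refine ⟨c, hc, ?_, ?_⟩
  · filter_upwards [hae] with B hB
    exact key B hB
  · intro φ
    obtain ⟨B, hB, f, hf, hfe⟩ := hDN (fun e => φ e e) _ hae
    refine ⟨{n | B n = true}, ⟨f, ?_, hfe⟩, key B hB⟩
    rw [chi_eq']
    exact TR_iff.1 hf

end Pool.Agent.Q205.NH
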