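import Pool.Agent.Q205.NH.Defs

set_option autoImplicit false

/-!
# Project NH: statements of the lemma jobs, with complete proofs in the docstrings

Useful libraries: `Pool.Agent.Helper743.Oracle` (`TR`, `TR_iff`, `pre`, `cert`, `join`),
`Pool.Agent.H715R3.D1` (`gam`, `gam_mono`, `gam_primrec`, `exists_gam`), `Pool.Agent.H715R3.D6`
(`mu`, `cyl_measure`), `Pool.Agent.H166R3.AT.CT` (closure of `Computable` under Boolean operations,
arithmetic, bounded sums `c_sum`, counting `c_count`, bounded quantifiers `c_bex`, `c_ball`,
searches `c_find`).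
-/

namespace Pool.Agent.Q205.NH

open Pool.Agent.Helper743 Pool.Agent.H715R3.Disp MeasureTheory
open scoped ENNReal

open Classical in
/-- JOB HC (harmonic count).  Let `N = 2 ^ (K + 1)`.  At most `10 N / |D|` of the multipliers `j < N`
rotate `D` (after some shift `r`) into the lower half of the residues.

Proof.  Let `n = |D|`, `S₁ j = ∑_{d ∈ D} exp (2 π i j d / N)`, `S₂ j = ∑_{d ∈ D} exp (4 π i j d / N)`.
If `(j d + r) % N < N / 2` for all `d ∈ D` put `θ_d = 2 π (j d + r - (N / 2 - 1) / 2) / N`; modulo
`2 π` it has absolute value at most `2 π (N / 2 - 1) / (2 N) < π / 2`, so `cos θ_d ≥ 0`, hence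
`cos θ_d ≥ (cos θ_d)² = (1 + cos (2 θ_d)) / 2`.  Summing, `2 |S₁ j| + |S₂ j| ≥ n` (the sums of
`exp (i θ_d)` and of `exp (2 i θ_d)` have the absolute values `|S₁ j|`, `|S₂ j|`).  So
`n² ≤ 5 (|S₁ j|² + |S₂ j|²)`.  Summing over all `j < N`: `∑_j |S₁ j|² = N n` since
`∑_j exp (2 π i j (d - d') / N) = 0` for `d ≠ d'` (`0 < |d - d'| < 2 ^ K < N`), and
`∑_j |S₂ j|² = N n` since `0 < 2 |d - d'| < 2 ^ (K + 1) = N`.  So the number of these `j` times `n²`
is at most `10 N n`; divide by `n` (the case `n = 0` is trivial). -/
def S_HC : Prop := ∀ (K : ℕ) (D : Finset ℕ), (∀ d ∈ D, d < 2 ^ K) →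
  ((Finset.range (2 ^ (K + 1))).filter
    (fun j => ∃ r, ∀ d ∈ D, (j * d + r) % 2 ^ (K + 1) < 2 ^ K)).card * D.card ≤ 10 * 2 ^ (K + 1)

open Classical in
/-- JOB AV (averaging), from `S_HC`.

Proof.  Let `K = L`, `N = 2 ^ (K + 1)`.  For `s ∈ S` the map `d ↦ d / M` is strictly monotone on
`D s` (all elements congruent modulo `M`, and `M > 0`) and has values `< L ≤ 2 ^ K`.  Let `P₁` be
the set of the `d / M` for the `80` smallest and `P₂` for the `80` largest elements of `D s`.  Call
`j < N` bad for `s` if for `P₁` or for `P₂` there is `r` with `(j k + r) % N < 2 ^ K` for all its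
elements `k`; by `S_HC` there are at most `2 * 10 N / 80 = N / 4` bad `j` for each `s`.  If `j` is not
bad for `s` then `Good M K j L (D s)`: let `q ≤ L`, `r < N`.  If all of the `80` smallest elements are
`< q` then `side K (j * k + r)` is not constant on `P₁`: not all are in the lower half, and if all
were in the upper half then with `r + 2 ^ K` instead of `r` all would be in the lower half.  Otherwise
the `80`-th element is `≥ q`, so the `80` largest elements are all `≥ q`, and the same argument works
for `P₂`.  Double counting of the pairs `(s, j)` gives `j < N` which is bad for at most a quarter of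
the `s ∈ S`. -/
def S_AV : Prop := ∀ (α : Type) (M L : ℕ), 0 < M → ∀ (S : Finset α) (D : α → Finset ℕ),
  (∀ s ∈ S, (D s).card = 160 ∧ (∀ d ∈ D s, d < L) ∧ ∀ d ∈ D s, ∀ d' ∈ D s, d % M = d' % M) →
  ∃ K j, j < 2 ^ (K + 1) ∧ 4 * (S.filter (fun s => ¬ Good M K j L (D s))).card ≤ S.card

/-- JOB PG (pigeonhole), from `S_AV`.

Proof.  Let `m = 160 M` and let `A L` be the set of the `B` for which the set
`X L B = {x < L : E e (bits B L) x = true}` has at least `m` elements.  By monotonicity of `E`,
`A L` is increasing in `L` (`bits B L` is a prefix of `bits B L'` for `L ≤ L'`) and its union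
contains all `B` with `(HS E e B).Infinite`.  So there is `L` with `3/4 < mu (A L)` (continuity from
below; `A L` is measurable, it depends only on the first `L` bits).  By `cyl_measure`, `mu (A L)` is
`|S| / 2 ^ L`, where `S` is the set of the `σ : Fin L → Bool` for which
`{x < L : E e (List.ofFn σ) x = true}` has at least `m` elements.  For `σ ∈ S` choose by the pigeonhole
principle `D σ`, a set of `160` elements of this set which are congruent modulo `M`.  `S_AV` gives
`K, j` for which `D σ` is good for at least `3/4` of the `σ ∈ S`; these are at least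
`(3/4) (3/4) 2 ^ L ≥ 2 ^ L / 2` strings. -/
def S_PG : Prop := ∀ (E : ℕ → List Bool → ℕ → Bool), Enum E → ∀ (e M : ℕ), 0 < M →
  3 / 4 < mu {B | (HS E e B).Infinite} → ∃ K j L, Cond E e M K j L

/-- JOB CP (computability of the condition).

Proof.  Code strings of length `L` by numbers `s < 2 ^ L` (`i`-th bit `s / 2 ^ i % 2 = 1`; the list
`(List.range L).map ...` is computable in `(s, L)`), and the finite sets `D ⊆ [0, L)` by numbers
`v < 2 ^ L` in the same way (in `GoodStr` only `D ⊆ [0, L)` matter).  `Good` is a combination of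
bounded quantifiers over numbers (`d`, `d'` below `L`, `q ≤ L`, `r < 2 ^ (K + 1)`) and `Cond` is a
count (`c_count`) over `s < 2 ^ L` of a bounded existential quantifier over `v < 2 ^ L`.  Use the
combinators of `Pool.Agent.H166R3.AT.CT`. -/
def S_CP : Prop := ∀ (E : ℕ → List Bool → ℕ → Bool), Enum E → ∃ CB : ℕ → ℕ → ℕ → Bool,
  Computable (fun q : (ℕ × ℕ) × ℕ => CB q.1.1 q.1.2 q.2) ∧
  ∀ e M w, CB e M w = true ↔ Cond E e M (wK w) (wj w) (wL w)

/-- JOB CC (computability of the colouring).

Proof.  `fw` and `Mv` are primitive recursions (`Computable.nat_rec`) on their last arguments from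
computable steps; `ctr` is a case distinction (`c_ite`), `col` a bounded sum (`c_sum`); `Nat.log 2`
is computable (bounded count: `Nat.log 2 x` is the number of the `i < x` with `2 ^ (i + 1) ≤ x`). -/
def S_CC : Prop := ∀ CB : ℕ → ℕ → ℕ → Bool,
  Computable (fun q : (ℕ × ℕ) × ℕ => CB q.1.1 q.1.2 q.2) → Computable (col CB)

/-- JOB KL (the colouring kills good sets).

Proof.  Write `K w = wK w` etc.  (0) `fw CB e M t = 0` iff `CB e M w = false` for all `w < t`, and
otherwise it is `w + 1` for the least `w` with `CB e M w = true`.  (1) All `Mv t i` are powers of two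
and `Mv t i ∣ Mv t i'` for `i ≤ i'`.  (2) Stabilisation, by induction on `i`: there are `T i` and
`M i > 0` with `Mv t i = M i` for all `t ≥ T i`; if there is `w` with `CB i (M i) w` let `w` be the
least one: for `t > max (T i) w`, `fw CB i (Mv t i) t = w + 1`; otherwise it is always `0`.  So
`fw CB i (Mv t i) t` is also eventually constant, say `f i`.  (3) Given `e` let `M = M e`.  If
`CB e M w = false` for all `w`, the first alternative holds.  Otherwise let `w` be least with
`CB e M w = true`, `K, j, L` its components, `M' = M (e + 1) = M * 2 ^ (K + 1 + L)`.  Let `T` be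
larger than `e`, `w` and all the stabilisation times of the levels `≤ e + 1`, and `M' ≤ 2 ^ T`
(so `M' ∣ 2 ^ T`).  Put `y0 = 2 ^ T`.  Let `D` be as in the statement and `y ≥ y0`.
Since `L < 2 ^ L ≤ M'` at most one of the numbers `y + 1, ..., y + L` is divisible by `M'`; let `q` be
such that it is `y + q` (and `q = L` if there is none): all `x = d + y`, `d ∈ D`, `d < q`, have the
same quotient `x / M'`, and so have all those with `q ≤ d`.  Let `ρ` be the common residue of the
elements of `D` modulo `M` and `r = (j * ((ρ + y) / M)) % 2 ^ (K + 1)`.  Goodness for `q`, `r` gives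
`d, d' ∈ D` on the same side of the cut with different sides.  Let `x = d + y`, `x' = d' + y`; we show
`col x ≠ col x'`.  They have the same quotient by `M'`, and `M'` divides all `2 ^ s`, `s ≥ T`, so
`Nat.log 2 x = Nat.log 2 x' =: t ≥ T` (no power of two which is `≥ 2 ^ T` is in between).
Contributions at stage `t`: level `i < e`: `Mv t i = M i`, and if the level contributes then
`M (i + 1) = M i * 2 ^ (K i + 1 + L i)` divides `M`, so `x ≡ x'` modulo `M i * 2 ^ (K i + 1)` and
`x / M i ≡ x' / M i` modulo `2 ^ (K i + 1)`: same contribution.  Levels `i > e`: `M'` divides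
`Mv t i`, so `x / Mv t i = x' / Mv t i` (`Nat.div_div_eq_div_mul`): same contribution.  Level `e`
(`e < T ≤ t`) contributes, since `M' ≤ 2 ^ T ≤ 2 ^ t`: `x / M = d / M + (ρ + y) / M` (as
`d = M * (d / M) + ρ`), so the contribution is `side K (j * (d / M) + r)` for `x` and the same with
`d'` for `x'`, and these are different.  So the two sums differ by exactly one. -/
def S_KL : Prop := ∀ (CB : ℕ → ℕ → ℕ → Bool) (e : ℕ), ∃ M, 0 < M ∧
  ((∀ w, CB e M w = false) ∨ ∃ w, CB e M w = true ∧
    ∀ D : Finset ℕ, (∀ d ∈ D, d < wL w) → Good M (wK w) (wj w) (wL w) D →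
      ∃ y0, ∀ y, y0 ≤ y → ∃ d ∈ D, ∃ d' ∈ D, col CB (d + y) ≠ col CB (d' + y))

/-- `S_CM`: the conclusion of the construction (helper205 assembles it from the previous ones). -/
def S_CM : Prop := ∀ (E : ℕ → List Bool → ℕ → Bool), Enum E → ∃ c : ℕ → Bool, Computable c ∧
  ∀ e, mu {B | (HS E e B).Infinite ∧ ¬ Killed c (HS E e B)} ≤ 3 / 4

/-- JOB DS (Lebesgue density for cylinders).

Proof.  For a string `σ` of length `n` let `[σ]` be its cylinder, `mu [σ] = 2 ^ (-n)`.
(1) `mu ([σ] ∩ A) = mu [σ] * mu {B | ow σ B ∈ A}` for measurable `A`: both sides are finite measures in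
`A`, equal on cylinders; or: `[σ]` depends on the first `n` coordinates, `{B | ow σ B ∈ A}` on the other
ones (independence in infinite products), and their intersection is `[σ] ∩ A`.  (2) Suppose
`mu (F e) > 0`.  By outer regularity (`Set.exists_isOpen_lt_of_lt` or
`Set.exists_isOpen_lt_add`) there is an open `U ⊇ F e` with `(3/4) mu U < mu (F e)`.  `U` is the
disjoint union of the cylinders `[σ]` of its minimal strings (`[σ] ⊆ U`, no proper prefix has
this property; cylinders are a basis of the product topology).  By countable additivity some `σ` has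
`mu (F e ∩ [σ]) > (3/4) mu [σ]`.  By (1) and the third hypothesis the left side is
`mu [σ] * mu (F e') ≤ (3/4) mu [σ]`, a contradiction. -/
def S_DS : Prop := ∀ F : ℕ → Set (ℕ → Bool), (∀ e, MeasurableSet (F e)) →
  (∀ e, mu (F e) ≤ 3 / 4) → (∀ e (σ : List Bool), ∃ e', F e' = {B | ow σ B ∈ F e}) →
  ∀ e, mu (F e) = 0

/-- JOB TF (an enumeration family for all Turing functionals, closed under overwriting).

Proof.  For `e = Nat.pair p s` let `τ` be the string coded by `s` (decode, default `[]`), and let
`E e ρ x = true` iff `τ.length ≤ ρ.length` and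
`gam p ((τ ++ ρ.drop τ.length).map Bool.toNat) x = some 1`.
Monotone by `gam_mono`, computable by `gam_primrec`.  Then `x ∈ HS E e B` iff
`∃ n, gam p (pre (bn (ow τ B)) n) x = some 1` (for `→` take `n` = length of the string; for `←` enlarge
`n` to at least `τ.length` by `gam_mono` and `pre_prefix`).  Closure: `ow τ (ow σ B) = ow τ' B` for the
string `τ' = τ ++ σ.drop τ.length`.  Last clause: `exists_gam` for `bn B` and `bn h` gives `p`; take
`e = Nat.pair p (encode [])`. -/
def S_TF : Prop := ∃ E : ℕ → List Bool → ℕ → Bool, Enum E ∧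
  (∀ e σ, ∃ e', ∀ B, HS E e' B = HS E e (ow σ B)) ∧
  ∀ h B : ℕ → Bool, TR (bn h) (bn B) → ∃ e, HS E e B = {x | h x = true}

/-- `S_MM`: main theorem on almost every oracle (helper205 assembles it). -/
def S_MM : Prop := ∃ c : ℕ → Bool, Computable c ∧ ∀ᵐ B ∂mu, ∀ h : ℕ → Bool,
  TR (bn h) (bn B) → {x | h x = true}.Infinite → Killed c {x | h x = true}

/-- JOB DN (random oracles compute functions avoiding a given partial function).

Proof.  Let `f B e = ∑_{k < e + 2} (B (Nat.pair e k)).toNat * 2 ^ k`.  `TR (f B) (bn B)`: bounded sum of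
values of the oracle (`cert`, or `RecT` closure under primitive recursion).  For fixed `e` and `v` at
most one pattern of the `e + 2` bits gives `f B e = v`, so `mu {B | f B e = v} ≤ 2 ^ (-(e + 2))`
(`Measure.infinitePi_pi`; the positions `Nat.pair e k` are distinct); `ψ e` has at most one value, so
`mu {B | ∃ e, f B e ∈ ψ e} ≤ ∑ 2 ^ (-(e + 2)) = 1/2 < 1` and some `B` with `Q B` is not in this set
(`mu` is a probability measure, `{B | Q B}` contains a set of measure one). -/
def S_DN : Prop := ∀ (ψ : ℕ →. ℕ) (Q : (ℕ → Bool) → Prop), (∀ᵐ B ∂mu, Q B) →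
  ∃ B, Q B ∧ ∃ f : ℕ → ℕ, TR f (bn B) ∧ ∀ e, f e ∉ ψ e

/-- JOB R1 (the random process goes on for ever with probability at least `1 - 2 ^ (-k)`).

Proof.  Write `OK l y` for the second clause of `New`: `f (pair a y) ≠ f (pair b y)` for `a ≠ b` in
`l`.  (0) Runs are unique (`Run f r n l`, `Run f r n l'` imply `l = l'`), their elements are
strictly increasing, and the run up to stage `n` depends only on `r 0, ..., r (n - 1)`.  (1) If `l` is
given and infinitely many `y` satisfy `OK l y` then infinitely many satisfy `New f l y`: the first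
clause excludes finitely many `y`; for the third clause, for every `a < b`, `k` in `l` at most one
`y > k` (indeed at most two pairs have the colour of `{a, b}`) satisfies
`f (pair k y) = f (pair a b)` (`TwoBounded`).  So a run of length `n` whose list satisfies this
can be continued, for every value of `r n`: the elements `z` with `New f l z` are `z_0 < z_1 < ...`,
and `y = z_{r n}`.  (2) Fix `y`.  Let `V y n` be the event that there are lists `l`, `l ++ [x]` with
`Run f r n l`, `Run f r (n + 1) (l ++ [x])`, `x < y`, `OK l y`, `¬ OK (l ++ [x]) y`, where `r = rnd k Y`.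
Given `r 0, ..., r (n - 1)` (so `l` is given), `x` is `z_{r n}`, so different values of `r n` give
different `x`, and `f (pair x y) = f (pair a y)` for some `a ∈ l`; for each of the `n` elements `a`
there is at most one `x < y`, `x ≠ a`, with this property (`TwoBounded`, as `a < y`).  So at most `n`
values of `r n` are possible, and
`r n` is uniform on the numbers below `2 ^ (2 n + 1 + k)` and independent of `r 0, ..., r (n - 1)`
(different bits of `Y`): `mu (V y n) ≤ n / 2 ^ (2 n + 1 + k)`.  The sum over `n` is
at most `2 ^ (-k) / 2 ≤ 2 ^ (-k)`.  So the event `G y` that no `V y n` happens has probability at least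
`1 - 2 ^ (-k)`.  (3) For `Y` in `G y` for infinitely many `y` all runs can be continued: by
induction on `n` there is a run `l` of length `n`, and `OK l y` for all those `y` with `G y` that are
larger than all elements of `l` (the empty list is OK); use (1).  The event `G y` for
infinitely many `y` has probability at least `limsup mu (G y) ≥ 1 - 2 ^ (-k)` (continuity from above).
-/
def S_R1 : Prop := ∀ (f : ℕ → ℕ), TwoBounded f → ∀ k : ℕ,
  1 - (2⁻¹ : ℝ≥0∞) ^ k ≤ mu {Y | ∀ n, ∃ l, Run f (rnd k Y) n l}

/-- JOB R2 (the rainbow set is computable from the colouring and the random bits).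

Proof.  Let `l n` be the run of length `n` (unique, `l n` is a prefix of `l (n + 1)`), strictly
increasing; `R` is the set of all elements, `h` its characteristic function.  `R` is infinite.  It is a
rainbow set: let `f (pair a b) = f (pair a' b')`, `a < b`, `a' < b'`, all in `R`.  If `b = b'` and
`a ≠ a'` this contradicts the second clause of `New` when `b` was added; if `b < b'` it contradicts the
third clause when `b'` was added (`a, b, a'` were in the list), same for `b' < b`.
`TR (bn h) (join f (bn Y))` by `cert`: the answer at `x` is certified by a list `l` with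
`Run f (rnd k Y) n l` whose last element is larger than `x` (answer: whether `x ∈ l`), where all values
of `f` and `Y` needed for checking `Run` are read off from a prefix of the oracle
`n ↦ Nat.pair (f n) (Y n).toNat`; `Run` for given lists is checked by bounded quantifiers and
counting (all `a, b, k, z` in it are smaller than the last element of `l`): use the combinators of
`Pool.Agent.H166R3.AT.CT`. -/
def S_R2 : Prop := ∀ (f : ℕ → ℕ) (k : ℕ) (Y : ℕ → Bool), (∀ n, ∃ l, Run f (rnd k Y) n l) →
  ∃ h : ℕ → Bool, TR (bn h) (join f (bn Y)) ∧ {x | h x = true}.Infinite ∧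
    RainbowSet f {x | h x = true}

/-- `S_RR`: almost every `Y` helps to compute a rainbow set (from `S_R1`, `S_R2`; helper205). -/
def S_RR : Prop := ∀ f : ℕ → ℕ, TwoBounded f → ∀ᵐ Y ∂mu, ∃ h : ℕ → Bool,
  TR (bn h) (join f (bn Y)) ∧ {x | h x = true}.Infinite ∧ RainbowSet f {x | h x = true}

/-- JOB ID (a chain of oracles closed under rainbow sets), from `S_RR`.

Proof.  (1) `mix` is measure preserving from `mu.prod mu` to `mu` (`Measure.eq_infinitePi` or
uniqueness on cylinders; `mix` is measurable in each coordinate).  (2) Call `Z : ℕ → Bool` fine if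
`∀ᵐ Y ∂mu, Q (bn (mix Z Y))`.  If `Z` is fine then for almost every `Y` the point `mix Z Y` is fine: by
(1) and `Measure.ae_ae_of_ae_prod`, for almost all `Y`, for almost all `Y'`, `Q (bn (mix Z (mix Y Y')))`,
and `TR (bn (mix (mix Z Y) Y')) (bn (mix Z (mix Y Y')))`, so that `hQ` gives
`Q (bn (mix (mix Z Y) Y'))`.  (3) The zero sequence is fine since `TR (bn (mix 0 Y)) (bn Y)`.  If `Z`
is fine then `Q (bn Z)`, as `TR (bn Z) (bn (mix Z Y))`.  (4) Given a fine `Z`, only countably many `f`
satisfy `TR f (bn Z)` (`exists_gam`), so by `S_RR` almost every `Y` is such that for all these `f`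
which are `TwoBounded` there is `h` with `TR (bn h) (join f (bn Y))`, infinite and rainbow; then
`TR (bn h) (bn (mix Z Y))`.  Choose such `Y` with `mix Z Y` fine, and continue with `mix Z Y`
(dependent choice). -/
def S_ID : Prop := ∀ Q : (ℕ → ℕ) → Prop, (∀ g h, TR g h → Q h → Q g) →
  (∀ᵐ B ∂mu, Q (bn B)) →
  ∃ Z : ℕ → (ℕ → Bool), (∀ n, Q (bn (Z n))) ∧ (∀ n, TR (bn (Z n)) (bn (Z (n + 1)))) ∧
    ∀ n f, TR f (bn (Z n)) → TwoBounded f →
      ∃ h : ℕ → Bool, TR (bn h) (bn (Z (n + 1))) ∧ {x | h x = true}.Infinite ∧
        RainbowSet f {x | h x = true}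

end Pool.Agent.Q205.NH
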